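import Pool.Agent.H43R3.SN.MkSD

/-!
From positions to a bin packing.
-/

set_option autoImplicit false

open Finset

namespace Pool.Agent.H43R3.SN

theorem sum_getD (l : List ℕ) : ∑ i ∈ range l.length, l.getD i 0 = l.sum := by
  induction l with
  | nil => simp
  | cons x l ih =>
    rw [List.length_cons, Finset.sum_range_succ', List.sum_cons]
    simp only [List.getD_cons_succ, List.getD_cons_zero]
    rw [ih, add_comm]

theorem core (hE : TaskE) (hF : TaskF) (hG : TaskG) (hH : TaskH) (hCAP : TaskCAP)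
    {S b B K' N H : ℕ} {a : List ℕ} {g : Vt → ℕ} {X h Z : ℕ}
    (hp : PD S (2 * b) (2 * K') N a g X h Z) (hh : h ≤ H) (hb : 1 ≤ b)
    (hK : 14 * H + 30 ≤ 2 * K') (hS1 : 20 * H + 50 ≤ S)
    (hS2 : 2 * b * ((8 * H + 17) * (3 * H + 10)) + H + 4 ≤ S)
    (hl : ∀ v ∈ VS S (2 * b) (2 * K') N a, v.1 = 0 → g v ≤ Z)
    (hr : ∀ v ∈ VS S (2 * b) (2 * K') N a, v.1 = 3 → X ≤ g v + Z)
    (hpos : ∀ i < a.length, 1 ≤ a.getD i 0) (hsum : a.sum = b * B) : BPk a b B := by
  classical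
  have hsumr : ∑ i ∈ range a.length, a.getD i 0 = b * B := by
    rw [← hsum, sum_getD]
  rcases Nat.eq_zero_or_pos a.length with h0 | h0
  · exact ⟨fun _ => 0, by intro i hi; omega, by intro j _; simp [h0]⟩
  set V := VS S (2 * b) (2 * K') N a with hV
  have hZX := hp.hZ
  have sd1 := hp.mkSD hh (c := 0) (Or.inl rfl) hl (by simpa using hr)
  have sd2 := hp.reflect.mkSD hh (c := 3) (Or.inr rfl)
    (by
      intro v hv h3
      have h1 := hr v hv h3
      have h2 := hp.le v hv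
      show X - g v ≤ Z
      omega)
    (by
      intro v hv h3
      have h1 := hl v hv (by simpa using h3)
      have h2 := hp.le v hv
      show X ≤ X - g v + Z
      omega)
  have hpV : ∀ i < a.length, ∀ q < 2 * K' * a.getD i 0, ((2, i, q) : Vt) ∈ V := by
    intro i hi q hq
    rw [hV, mem_VS, mem_vlist]
    right; right; left
    exact ⟨rfl, hi, hq⟩
  have hne3 : ∀ (x y z : ℕ), x ≠ 3 → ∀ i ≤ S, ((x, y, z) : Vt) ≠ (3, i, 0) := by
    intro x y z hx i _ h1
    rw [Prod.mk.injEq] at h1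
    exact hx h1.1
  have hne0 : ∀ (x y z : ℕ), x ≠ 0 → ∀ i ≤ S, ((x, y, z) : Vt) ≠ (0, i, 0) := by
    intro x y z hx i _ h1
    rw [Prod.mk.injEq] at h1
    exact hx h1.1
  have hpg : ∀ i q, gam S (2 * b) (2, i, q) (2, i, q + 1) := by
    intro i q
    rw [gam_iff]
    simp
  -- item edges are on the left
  have hpe : ∀ i < a.length, ∀ q, q + 1 < 2 * K' * a.getD i 0 →
      g (2, i, q) + g (2, i, q + 1) ≤ Z := by
    intro i hi q hq
    have h1 := hpV i hi q (by omega)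
    have h2 := hpV i hi (q + 1) hq
    rcases hp.zone _ h1 _ h2 (hpg i q) with h3 | h3
    · exact h3
    · exfalso
      have h4 := hF hE Vt V (gam S (2 * b)) _ S H Z _ _ sd2 (by omega) (by
        intro i hi w hw h5
        rw [gam_iff] at h5
        rw [hV, mem_VS, mem_vlist] at hw
        obtain ⟨x', y', z'⟩ := w
        rcases h5 with h5 | h5 | h5 | h5 | h5
        · exact absurd h5.1 (by norm_num)
        · exact absurd h5.1 (by norm_num)
        · exact absurd h5.1 (by norm_num)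
        · exact absurd h5.1 (by norm_num)
        · have h6 : x' = 3 := h5.2.1
          subst h6
          have h7 : y' ≤ S ∧ z' = 0 := by simpa using hw
          exact ⟨y', h7.1, by rw [h7.2]⟩) _ h1 _ h2 (hne3 _ _ _ (by norm_num)) (hne3 _ _ _ (by norm_num)) (hpg i q)
      have h5 := hp.le _ h1
      have h6 := hp.le _ h2
      have h7 : Z < (X - g (2, i, q)) + (X - g (2, i, q + 1)) := h4
      omega
  obtain ⟨-, hE2⟩ := hE Vt V (gam S (2 * b)) g S H Z _ _ sd1 (by omega)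
  have hbig : ∀ i < a.length, ∀ q, q + 1 < 2 * K' * a.getD i 0 →
      S + 6 * H + 8 < g (2, i, q) + g (2, i, q + 1) := by
    intro i hi q hq
    have h3 := hpe i hi q hq
    have h1 := hE2 _ (hpV i hi q (by omega)) (hne0 _ _ _ (by norm_num)) (by omega)
    have h2 := hE2 _ (hpV i hi (q + 1) hq) (hne0 _ _ _ (by norm_num)) (by omega)
    omega
  have hK3 : 2 + 1 ≤ 2 * K' * a.getD 0 0 := by
    have := hpos 0 h0
    calc 2 + 1 ≤ 2 * K' := by omega
      _ = 2 * K' * 1 := by ring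
      _ ≤ 2 * K' * a.getD 0 0 := Nat.mul_le_mul_left _ this
  set σ1 := g (2, 0, 0) + g (2, 0, 1) with hσ1
  set σ2 := g (2, 0, 1) + g (2, 0, 2) with hσ2
  have hb1 : S + 6 * H + 8 < σ1 := hbig 0 h0 0 (by omega)
  have hb2 : S + 6 * H + 8 < σ2 := hbig 0 h0 1 (by omega)
  have hU1 : σ1 ∈ UZ S (2 * b) (2 * K') N a g Z :=
    mem_UZ.2 ⟨_, hpV 0 h0 0 (by omega), _, hpV 0 h0 1 (by omega), hpg 0 0,
      hpe 0 h0 0 (by omega), rfl⟩
  have hU2 : σ2 ∈ UZ S (2 * b) (2 * K') N a g Z :=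
    mem_UZ.2 ⟨_, hpV 0 h0 1 (by omega), _, hpV 0 h0 2 (by omega), hpg 0 1,
      hpe 0 h0 1 (by omega), rfl⟩
  have hσne : σ1 ≠ σ2 := by
    intro h1
    have h2 : g (2, 0, 0) = g (2, 0, 2) := by omega
    have h3 := hp.inj (hpV 0 h0 0 (by omega)) (hpV 0 h0 2 (by omega)) h2
    simp at h3
  obtain ⟨s1, s2, hs12, hs1U, hs2U, hs1b, hs2b⟩ : ∃ s1 s2, s1 < s2 ∧
      s1 ∈ UZ S (2 * b) (2 * K') N a g Z ∧ s2 ∈ UZ S (2 * b) (2 * K') N a g Z ∧
      S + 6 * H + 8 < s1 ∧ S + 6 * H + 8 < s2 := by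
    rcases lt_or_gt_of_ne hσne with h1 | h1
    · exact ⟨σ1, σ2, h1, hU1, hU2, hb1, hb2⟩
    · exact ⟨σ2, σ1, h1, hU2, hU1, hb2, hb1⟩
  have hGG := hG hE Vt V (gam S (2 * b)) g S H Z _ _ sd1 (by omega)
  have hall : ∀ u ∈ UZ S (2 * b) (2 * K') N a g Z, S + 6 * H + 8 < u → u = s1 ∨ u = s2 := by
    intro u hu hub
    by_contra hcon
    push Not at hcon
    rcases lt_or_gt_of_ne hcon.1 with h1 | h1
    · have := hGG u hu s1 hs1U s2 hs2U h1 hs12
      omega
    · rcases lt_or_gt_of_ne hcon.2 with h2 | h2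
      · have := hGG s1 hs1U u hu s2 hs2U h1 h2
        omega
      · have := hGG s1 hs1U s2 hs2U u hu hs12 h2
        omega
  have hwV : ∀ j ≤ S + 2 * b, ((1, j, 0) : Vt) ∈ V ∧ ∀ i ≤ S, ((1, j, 0) : Vt) ≠ (0, i, 0) := by
    intro j hj
    refine ⟨?_, hne0 _ _ _ (by norm_num)⟩
    rw [hV, mem_VS, mem_vlist]
    right; left
    exact ⟨rfl, hj, rfl⟩
  have hwi : ∀ j ≤ S + 2 * b, ∀ j' ≤ S + 2 * b, ((1, j, 0) : Vt) = (1, j', 0) → j = j' := by
    intro j _ j' _ h1
    simpa using h1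
  have hwt : ∀ i ≤ S, ∀ j ≤ S + 2 * b, (gam S (2 * b) (1, j, 0) (0, i, 0) ↔
      j = i ∨ j = i + 2 * b) := by
    intro i _ j _
    rw [gam_iff]
    simp
  have hd := hH hE Vt V (gam S (2 * b)) g S H Z _ _ (fun j => ((1, j, 0) : Vt)) (2 * b) s1 s2 sd1
    (by omega) hs12 hS2 hwV hwi hwt hall
  subst hd
  obtain ⟨f, hf1, hf2⟩ := hCAP hE Vt V (gam S (2 * b)) g S H Z _ _ (fun j => ((1, j, 0) : Vt))
    (fun i q => ((2, i, q) : Vt)) (fun i => a.getD i 0) a.length b B (2 * K') s1 sd1 hb hK hS1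
    hwV hwi hwt hpos
    (by
      intro i hi q hq
      refine ⟨hpV i hi q hq, hne0 _ _ _ (by norm_num), ?_⟩
      intro j _ h1
      simp at h1)
    (by
      intro i _ q _ i' _ q' _ h1
      simpa using h1)
    (by
      intro i hi q hq
      exact ⟨hpg i q, hpe i hi q hq⟩)
    (by
      intro v hv hex hgv
      obtain ⟨u, hu, hg⟩ := hex
      have hv' := hv
      rw [hV, mem_VS, mem_vlist] at hv
      rw [gam_iff] at hg
      obtain ⟨x, y, z⟩ := v
      rcases hv with ⟨h1, h2, h3⟩ | ⟨h1, h2, h3⟩ | ⟨h1, h2, h3⟩ | ⟨h1, h2, h3⟩ | ⟨h1, h2, h3⟩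
      · left
        simp only at h1 h2 h3
        exact ⟨y, h2, by rw [h1, h3]⟩
      · right; left
        simp only at h1 h2 h3
        exact ⟨y, h2, by rw [h1, h3]⟩
      · right; right
        simp only at h1 h2 h3
        exact ⟨y, h2, z, h3, by rw [h1]⟩
      · exfalso
        have := hr _ hv' h1
        omega
      · exfalso
        simp only at h1 hg
        omega)
    hsumr hs2U hall
  exact ⟨f, hf1, hf2⟩

end Pool.Agent.H43R3.SN
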