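import Pool.Agent.H43R3.SN.StmtsA

set_option autoImplicit false

open Finset

namespace Pool.Agent.H43R3.SN

theorem taskEXL : TaskEXL := by
  intro V _ _ G g X W hg hX hadj hW
  set e := W.orderEmbOfFin rfl with he
  have heW : ∀ i, e i ∈ W := fun i => W.orderEmbOfFin_mem rfl i
  have heX : ∀ i, e i ≤ 2 * X := fun i => hW _ (heW i)
  have hsurj : ∀ w ∈ W, ∃ i, e i = w := by
    intro w hw
    have : w ∈ Set.range e := by
      rw [he, Finset.range_orderEmbOfFin]; exact hw
    exact this
  let l : V ⊕ Fin W.card → ℕ := Sum.elim (fun v => g v + (2 * X + 1)) (fun i => 2 * (2 * X + 1) + e i)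
  have hl1 : ∀ v, l (Sum.inl v) = g v + (2 * X + 1) := fun v => rfl
  have hl2 : ∀ i, l (Sum.inr i) = 2 * (2 * X + 1) + e i := fun i => rfl
  refine ⟨l, ?_, ?_, ?_, ?_⟩
  · rintro (a | a) (b | b) h
    · rw [hl1, hl1] at h
      rw [hg (by omega : g a = g b)]
    · rw [hl1, hl2] at h
      have := hX a
      omega
    · rw [hl1, hl2] at h
      have := hX b
      omega
    · rw [hl2, hl2] at h
      rw [e.injective (by omega : e a = e b)]
  · rintro (a | a)
    · rw [hl1]; omega
    · rw [hl2]; omega
  · intro u v huv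
    rw [hadj u v huv]
    constructor
    · intro h
      obtain ⟨i, hi⟩ := hsurj _ h
      refine ⟨Sum.inr i, ?_⟩
      rw [hl1, hl1, hl2, hi]
      omega
    · rintro ⟨w | i, h⟩
      · rw [hl1, hl1, hl1] at h
        have := hX w
        omega
      · rw [hl1, hl1, hl2] at h
        have h2 : g u + g v = e i := by omega
        rw [h2]
        exact heW i
  · rintro (x | x) i hx (w | w)
    · rw [hl1, hl1, hl2]
      have := hX w
      omega
    · rw [hl1, hl2, hl2]
      have := heX w
      omega
    · rw [hl1, hl2, hl2]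
      have := hX w
      omega
    · rw [hl2, hl2, hl2]
      have := heX w
      omega

end Pool.Agent.H43R3.SN
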