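import Pool.Agent.H43R3.SN.StmtsA

set_option autoImplicit false

open Finset

namespace Pool.Agent.H43R3.SN

theorem taskF : TaskF := by
  classical
  intro hE α V gam g S h Y U t sd hS hcl y hy z hz hyt hzt hyz
  by_contra hcon
  have hu : g y + g z ≤ Y := by omega
  obtain ⟨hE1, hE2⟩ := hE α V gam g S h Y U t sd (by omega)
  have hyz' : y ≠ z := by
    rintro rfl
    exact sd.irr _ hyz
  have huU : g y + g z ∈ U := (sd.adj y hy z hz hyz' hu).1 hyz
  have h1 := hE2 y hy hyt (by omega)
  have h2 := hE2 z hz hzt (by omega)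
  obtain ⟨u, rfl⟩ : ∃ u, u = g y + g z := ⟨_, rfl⟩
  generalize hug : g y + g z = u at hu huU
  have hu2 : 2 * S ≤ u + 4 * h + 14 := by omega
  -- the indices
  set I : Finset ℕ := range (S - h - 3) with hI
  have hmI : ∀ i ∈ I, i + h + 4 ≤ S := by
    intro i hi
    rw [hI, mem_range] at hi
    omega
  have hle : ∀ i ∈ I, g (t i) ≤ u := by
    intro i hi
    have := (hE1 i (hmI i hi)).1
    have := hmI i hi
    omega
  have hinj : ∀ i ≤ S, ∀ j ≤ S, g (t i) = g (t j) → i = j := by
    intro i hi j hj hij
    exact sd.tinj i hi j hj (sd.inj (sd.tV i hi) (sd.tV j hj) hij)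
  have c1 : (I.filter (fun i => ∀ v ∈ V, g v ≠ u - g (t i))).card ≤ h := by
    have e : ((I.filter (fun i => ∀ v ∈ V, g v ≠ u - g (t i))).image (fun i => u - g (t i))).card
        = (I.filter (fun i => ∀ v ∈ V, g v ≠ u - g (t i))).card := by
      apply card_image_of_injOn
      intro i hi j hj hij
      rw [mem_coe, mem_filter] at hi hj
      have a1 := hle i hi.1
      have a2 := hle j hj.1
      have a3 := hmI i hi.1
      have a4 := hmI j hj.1
      apply hinj i (by omega) j (by omega)
      have hij' : u - g (t i) = u - g (t j) := hij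
      omega
    rw [← e]
    apply sd.hole
    intro p hp
    rw [mem_image] at hp
    obtain ⟨i, hi, rfl⟩ := hp
    rw [mem_filter] at hi
    exact ⟨by omega, hi.2⟩
  have c2 : (I.filter (fun i => u = 2 * g (t i))).card ≤ 1 := by
    rw [card_le_one]
    intro i hi j hj
    rw [mem_filter] at hi hj
    have a3 := hmI i hi.1
    have a4 := hmI j hj.1
    apply hinj i (by omega) j (by omega)
    omega
  have c3 : (I.filter (fun i => ∃ j, j ≤ S ∧ S < j + h + 4 ∧ g (t i) + g (t j) = u)).card
      ≤ h + 4 := by
    have e : (Icc (S - h - 3) S).card = h + 4 := by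
      rw [Nat.card_Icc]
      omega
    rw [← e]
    apply card_le_card_of_injOn (fun i => if hx : ∃ j, j ≤ S ∧ S < j + h + 4 ∧
      g (t i) + g (t j) = u then Classical.choose hx else 0)
    · intro i hi
      rw [mem_coe, mem_filter] at hi
      have hx := hi.2
      have hsp := Classical.choose_spec hx
      simp only [dif_pos hx, coe_Icc, Set.mem_Icc]
      constructor <;> omega
    · intro i hi j hj hij
      rw [mem_coe, mem_filter] at hi hj
      have hx := hi.2
      have hx' := hj.2
      have hsp := Classical.choose_spec hx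
      have hsp' := Classical.choose_spec hx'
      simp only [dif_pos hx, dif_pos hx'] at hij
      rw [← hij] at hsp'
      have a3 := hmI i hi.1
      have a4 := hmI j hj.1
      apply hinj i (by omega) j (by omega)
      omega
  have hcov : I ⊆ (I.filter (fun i => ∀ v ∈ V, g v ≠ u - g (t i))) ∪
      ((I.filter (fun i => u = 2 * g (t i))) ∪
        (I.filter (fun i => ∃ j, j ≤ S ∧ S < j + h + 4 ∧ g (t i) + g (t j) = u))) := by
    intro i hi
    rw [mem_union, mem_union, mem_filter, mem_filter, mem_filter]
    by_cases hh : ∀ v ∈ V, g v ≠ u - g (t i)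
    · exact Or.inl ⟨hi, hh⟩
    right
    push Not at hh
    obtain ⟨w, hw, hgw⟩ := hh
    have hl := hle i hi
    have hiS := hmI i hi
    by_cases hwt : w = t i
    · left
      subst hwt
      exact ⟨hi, by omega⟩
    right
    refine ⟨hi, ?_⟩
    have hs : g (t i) + g w = u := by omega
    have hg : gam (t i) w := by
      rw [sd.adj (t i) (sd.tV i (by omega)) w hw (Ne.symm hwt) (by omega), hs]
      exact huU
    obtain ⟨j, hj, rfl⟩ := hcl i (by omega) w hw hg
    refine ⟨j, hj, ?_, hs⟩
    by_contra hcj
    have hj4 : j + h + 4 ≤ S := by omega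
    have b1 := (hE1 i hiS).1
    have b2 := (hE1 j hj4).1
    have b3 := ((sd.tt i (by omega) j hj).1 hg).2
    omega
  have hc := card_le_card hcov
  have hc1 := card_union_le (I.filter (fun i => ∀ v ∈ V, g v ≠ u - g (t i)))
    ((I.filter (fun i => u = 2 * g (t i))) ∪
        (I.filter (fun i => ∃ j, j ≤ S ∧ S < j + h + 4 ∧ g (t i) + g (t j) = u)))
  have hc2 := card_union_le (I.filter (fun i => u = 2 * g (t i)))
        (I.filter (fun i => ∃ j, j ≤ S ∧ S < j + h + 4 ∧ g (t i) + g (t j) = u))
  have hIc : I.card = S - h - 3 := by rw [hI, card_range]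
  omega

end Pool.Agent.H43R3.SN
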