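import Pool.Agent.H43R3.SN.Vl

/-!
The two ends of a labelling.
-/

set_option autoImplicit false

open Finset

namespace Pool.Agent.H43R3.SN

/-- the vertex set -/
def VS (S d K N : ℕ) (a : List ℕ) : Finset Vt := (vlist S d K N a).toFinset

theorem mem_VS {S d K N : ℕ} {a : List ℕ} {v : Vt} : v ∈ VS S d K N a ↔ v ∈ vlist S d K N a := by
  simp [VS]

/-- Properties of the positions. -/
structure PD (S d K N : ℕ) (a : List ℕ) (g : Vt → ℕ) (X h Z : ℕ) : Prop where
  inj : Set.InjOn g (VS S d K N a)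
  le : ∀ v ∈ VS S d K N a, g v ≤ X
  hole : X + 1 ≤ (VS S d K N a).card + h
  zone : ∀ u ∈ VS S d K N a, ∀ v ∈ VS S d K N a, gam S d u v →
    g u + g v ≤ Z ∨ 2 * X ≤ g u + g v + Z
  cons : ∀ u ∈ VS S d K N a, ∀ v ∈ VS S d K N a, ∀ x ∈ VS S d K N a, ∀ y ∈ VS S d K N a,
    u ≠ v → x ≠ y → g u + g v = g x + g y → gam S d u v → gam S d x y
  hZ : 2 * Z < X

open Classical in
/-- the sums of non-adjacent pairs near the left end -/
noncomputable def UZ (S d K N : ℕ) (a : List ℕ) (g : Vt → ℕ) (Z : ℕ) : Finset ℕ :=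
  (((VS S d K N a) ×ˢ (VS S d K N a)).filter
    (fun p => gam S d p.1 p.2 ∧ g p.1 + g p.2 ≤ Z)).image (fun p => g p.1 + g p.2)

theorem mem_UZ {S d K N : ℕ} {a : List ℕ} {g : Vt → ℕ} {Z u : ℕ} : u ∈ UZ S d K N a g Z ↔
    ∃ x ∈ VS S d K N a, ∃ y ∈ VS S d K N a, gam S d x y ∧ g x + g y ≤ Z ∧ g x + g y = u := by
  classical
  simp only [UZ, Finset.mem_image, Finset.mem_filter, Finset.mem_product]
  constructor
  · rintro ⟨⟨x, y⟩, ⟨⟨h1, h2⟩, h3, h4⟩, h5⟩
    exact ⟨x, h1, y, h2, h3, h4, h5⟩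
  · rintro ⟨x, h1, y, h2, h3, h4, h5⟩
    exact ⟨(x, y), ⟨⟨h1, h2⟩, h3, h4⟩, h5⟩

theorem PD.reflect {S d K N : ℕ} {a : List ℕ} {g : Vt → ℕ} {X h Z : ℕ}
    (hp : PD S d K N a g X h Z) : PD S d K N a (fun v => X - g v) X h Z := by
  refine ⟨?_, ?_, hp.hole, ?_, ?_, hp.hZ⟩
  · intro x hx y hy hxy
    have h1 := hp.le x hx
    have h2 := hp.le y hy
    have : g x = g y := by
      simp only at hxy
      omega
    exact hp.inj hx hy this
  · intro v _
    exact Nat.sub_le _ _
  · intro u hu v hv huv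
    have h1 := hp.le u hu
    have h2 := hp.le v hv
    rcases hp.zone u hu v hv huv with h3 | h3
    · right
      show 2 * X ≤ (X - g u) + (X - g v) + Z
      omega
    · left
      show (X - g u) + (X - g v) ≤ Z
      omega
  · intro u hu v hv x hx y hy huv hxy hs hg
    have h1 := hp.le u hu
    have h2 := hp.le v hv
    have h3 := hp.le x hx
    have h4 := hp.le y hy
    refine hp.cons u hu v hv x hx y hy huv hxy ?_ hg
    have hs' : (X - g u) + (X - g v) = (X - g x) + (X - g y) := hs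
    omega

theorem PD.mkSD {S d K N : ℕ} {a : List ℕ} {g : Vt → ℕ} {X h Z H : ℕ}
    (hp : PD S d K N a g X h Z) (hh : h ≤ H) {c : ℕ} (hc : c = 0 ∨ c = 3)
    (hl : ∀ v ∈ VS S d K N a, v.1 = c → g v ≤ Z)
    (hr : ∀ v ∈ VS S d K N a, v.1 = 3 - c → X ≤ g v + Z) :
    SD (VS S d K N a) (gam S d) g S H Z (UZ S d K N a g Z) (fun i => ((c, i, 0) : Vt)) := by
  classical
  have hZ := hp.hZ
  have htV : ∀ i ≤ S, ((c, i, 0) : Vt) ∈ VS S d K N a := by
    intro i hi
    rw [mem_VS, mem_vlist]
    rcases hc with rfl | rfl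
    · left; exact ⟨rfl, hi, rfl⟩
    · right; right; right; left; exact ⟨rfl, hi, rfl⟩
  have hnt : ∀ v ∈ VS S d K N a, (∀ i ≤ S, v ≠ ((c, i, 0) : Vt)) → v.1 ≠ c := by
    intro v hv h1 h2
    rw [mem_VS, mem_vlist] at hv
    obtain ⟨x, y, z⟩ := v
    have h2' : x = c := h2
    subst h2'
    rcases hc with rfl | rfl
    · have h3 : y ≤ S ∧ z = 0 := by simpa using hv
      refine h1 y h3.1 ?_
      rw [h3.2]
    · have h3 : y ≤ S ∧ z = 0 := by simpa using hv
      refine h1 y h3.1 ?_
      rw [h3.2]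
  refine
    { inj := hp.inj
      symm := fun u v => gam_symm
      irr := gam_irr
      hole := ?_
      UY := ?_
      adj := ?_
      tV := htV
      tinj := ?_
      tl := ?_
      tt := ?_
      tx := ?_
      low := ?_ }
  · intro s hs
    have h1 : Disjoint s ((VS S d K N a).image g) := by
      rw [Finset.disjoint_left]
      intro y hy hy'
      obtain ⟨v, hv, hvy⟩ := Finset.mem_image.1 hy'
      exact (hs y hy).2 v hv hvy
    have h2 : s ∪ (VS S d K N a).image g ⊆ Finset.range (X + 1) := by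
      intro y hy
      rw [Finset.mem_union] at hy
      rw [Finset.mem_range]
      rcases hy with hy | hy
      · have := (hs y hy).1
        omega
      · obtain ⟨v, hv, hvy⟩ := Finset.mem_image.1 hy
        have := hp.le v hv
        omega
    have h3 := Finset.card_le_card h2
    rw [Finset.card_union_of_disjoint h1, Finset.card_image_of_injOn hp.inj,
      Finset.card_range] at h3
    have := hp.hole
    omega
  · intro u hu
    obtain ⟨x, hx, y, hy, h1, h2, h3⟩ := mem_UZ.1 hu
    have hne : g x ≠ g y := by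
      intro h4
      have := hp.inj hx hy h4
      rw [this] at h1
      exact gam_irr _ h1
    omega
  · intro v hv w hw hvw hs
    constructor
    · intro h1
      exact mem_UZ.2 ⟨v, hv, w, hw, h1, hs, rfl⟩
    · intro h1
      obtain ⟨x, hx, y, hy, h2, h3, h4⟩ := mem_UZ.1 h1
      refine hp.cons x hx y hy v hv w hw ?_ hvw h4 h2
      rintro rfl
      exact gam_irr _ h2
  · intro i _ j _ h1
    simpa using h1
  · intro i hi w hw h1
    have h2 := hl _ (htV i hi) rfl
    have h3 := hp.le w hw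
    rcases hp.zone _ (htV i hi) w hw h1 with h4 | h4
    · exact h4
    · omega
  · intro i _ j _
    rw [gam_iff]
    simp only
    omega
  · intro i hi s hs
    refine (Finset.card_le_card (t := {(1, i, 0), (1, i + d, 0)}) ?_).trans (Finset.card_le_two)
    intro w hw
    obtain ⟨hw1, hw2, hw3⟩ := hs w hw
    have hw4 := hnt w hw1 hw3
    rw [mem_VS, mem_vlist] at hw1
    rw [gam_iff] at hw2
    obtain ⟨x', y', z'⟩ := w
    simp only [Finset.mem_insert, Finset.mem_singleton, Prod.mk.injEq] at *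
    rcases hc with rfl | rfl <;> omega
  · intro v hv hnv hvZ s hs
    have h1 := hnt v hv hnv
    have h2 : v.1 ≠ 3 - c := by
      intro h3
      have := hr v hv h3
      omega
    refine deg_two (S := S) (d := d) (K := K) (N := N) (a := a) (v := v) (by omega) (by omega) s ?_
    intro w hw
    obtain ⟨hw1, hw2⟩ := hs w hw
    exact ⟨mem_VS.1 hw1, hw2⟩

end Pool.Agent.H43R3.SN
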