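import Pool.Agent.H43R3.SN.StmtsA
import Pool.Agent.H557R2.Tri.Main
import Pool.Agent.H515R2.PP.Main

/-!
# Project H43-SN (MP_daf980_lc): the source problem and the reduction
-/

set_option autoImplicit false

open Finset

namespace Pool.Agent.H43R3.SN

/-! ### The source problem and the reduction -/

open Pool.Agent.NPC Pool.Agent.NPC.H632 Pool.Agent.H557R2.Tri Pool.Agent.H692R2

/-- weights of the types -/
def wt (i : ℕ) : ℕ := if i = 0 then 16 else if i = 1 then 17 else 19

/-- scale -/
def MM (m q : ℕ) : ℕ := 100 * (HH m q).toNat + 100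

/-- size of an element -/
def sz (m q : ℕ) (e : Elt) : ℕ := MM m q * wt e.1 + (mn m e + HH m q).toNat

/-- the sizes of the items (the minimum has no effect under the promise `Pr`, it makes the sizes
polynomial in the length of the list and `q` for all inputs) -/
def sizes (I : List (ℕ × ℕ × ℕ) × ℕ) : List ℕ :=
  (EE I.1 I.2).map (fun e => min (sz I.1.length I.2 e) (20 * MM I.1.length I.2))

/-- the number of bins -/
def bb (I : List (ℕ × ℕ × ℕ) × ℕ) : ℕ := 3 * I.1.length

/-- the capacity -/
def BB (I : List (ℕ × ℕ × ℕ) × ℕ) : ℕ := 52 * MM I.1.length I.2 + 3 * (HH I.1.length I.2).toNat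

/-- TASK SRC: exact cover is bin packing. -/
def TaskSRC : Prop := ∀ I : List (ℕ × ℕ × ℕ) × ℕ, Pr I.1 I.2 →
  (X3C I ↔ (sizes I).sum = bb I * BB I ∧ BPk (sizes I) (bb I) (BB I))

/-- bound for the holes -/
def pH (b r : ℕ) : ℕ := 4 * b * (r + 1) + 2

/-- half of the scale of the items -/
def pK (b r : ℕ) : ℕ := 7 * pH b r + 15

/-- the size of the threshold graphs -/
def pS (b r : ℕ) : ℕ := 2 * b * ((8 * pH b r + 17) * (3 * pH b r + 10)) + 21 * pH b r + 60

/-- the excess -/
def pE (b r B : ℕ) : ℕ := 4 * pS b r + 8 * b + 4 + 4 * b * (pK b r * B + r)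

/-- the size of the core -/
def pN (b r B : ℕ) : ℕ := (3 * pE b r B + 4) * (pE b r B + 7)

/-- the vertices of the graph of the instance -/
def vI (a : List ℕ) (b B : ℕ) : List Vt :=
  vlist (pS b a.length) (2 * b) (2 * pK b a.length) (pN b a.length B) a

/-- number of isolated vertices allowed -/
def kI (a : List ℕ) (b B : ℕ) : ℕ :=
  2 * XX (pS b a.length) b B (pK b a.length) a.length (pN b a.length B) - (2 * pS b a.length + 3)

/-- the graph of the instance: different vertices are adjacent unless `gam` holds -/
def grI (a : List ℕ) (b B : ℕ) : FinGraph :=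
  ⟨(vI a b B).length, SimpleGraph.fromRel (fun i j : Fin (vI a b B).length =>
    gb (pS b a.length) (2 * b) ((vI a b B).get i) ((vI a b B).get j) = false)⟩

/-- the reduction; the complete graph with 2 vertices and the number 0 if the sum of the sizes is
not the total capacity -/
noncomputable def redJ (I : List (ℕ × ℕ × ℕ) × ℕ) : FinGraph × ℕ :=
  if (sizes I).sum = bb I * BB I then
    (grI (sizes I) (bb I) (BB I), kI (sizes I) (bb I) (BB I))
  else (⟨2, ⊤⟩, 0)

/-- the reduction, with `q` bounded by the number of triples (no effect under the promise) -/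
noncomputable def redI (I : List (ℕ × ℕ × ℕ) × ℕ) : FinGraph × ℕ :=
  redJ (I.1, min I.2 I.1.length)

/-- TASK POLY: the reduction is polynomial. -/
def TaskPOLY : Prop := Poly redI

end Pool.Agent.H43R3.SN
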