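import Pool.Agent.H43R3.SN.Core

/-!
From a labelling to positions.
-/

set_option autoImplicit false

open Finset

namespace Pool.Agent.H43R3.SN

theorem PD.allLeft {S d K N : ℕ} {a : List ℕ} {g : Vt → ℕ} {X h Z : ℕ}
    (hp : PD S d K N a g X h Z) {c : ℕ} (hc : c = 0 ∨ c = 3) {v : Vt} (hv : v ∈ VS S d K N a)
    (hvc : v.1 = c) (hvZ : g v ≤ Z) : ∀ w ∈ VS S d K N a, w.1 = c → g w ≤ Z := by
  have hZ := hp.hZ
  have hform : ∀ w ∈ VS S d K N a, w.1 = c → ∃ i ≤ S, w = ((c, i, 0) : Vt) := by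
    intro w hw hwc
    rw [mem_VS, mem_vlist] at hw
    obtain ⟨x, y, z⟩ := w
    have h1 : x = c := hwc
    subst h1
    rcases hc with rfl | rfl
    · have h3 : y ≤ S ∧ z = 0 := by simpa using hw
      exact ⟨y, h3.1, by rw [h3.2]⟩
    · have h3 : y ≤ S ∧ z = 0 := by simpa using hw
      exact ⟨y, h3.1, by rw [h3.2]⟩
  have hT : ((c, 0, 0) : Vt) ∈ VS S d K N a := by
    rw [mem_VS, mem_vlist]
    rcases hc with rfl | rfl
    · left; exact ⟨rfl, Nat.zero_le _, rfl⟩
    · right; right; right; left; exact ⟨rfl, Nat.zero_le _, rfl⟩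
  have hg : ∀ i ≤ S, i ≠ 0 → gam S d (c, i, 0) (c, 0, 0) := by
    intro i hi hi0
    rw [gam_iff]
    rcases hc with rfl | rfl
    · left; exact ⟨rfl, rfl, hi0, by simpa using hi⟩
    · right; right; right; right; exact ⟨rfl, rfl, hi0, by simpa using hi⟩
  have h0 : g (c, 0, 0) ≤ Z := by
    obtain ⟨i, hi, rfl⟩ := hform v hv hvc
    rcases Nat.eq_zero_or_pos i with rfl | hi0
    · exact hvZ
    · have h1 := hp.le _ hT
      rcases hp.zone _ hv _ hT (hg i hi (by omega)) with h2 | h2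
      · omega
      · omega
  intro w hw hwc
  obtain ⟨i, hi, rfl⟩ := hform w hw hwc
  rcases Nat.eq_zero_or_pos i with rfl | hi0
  · exact h0
  · have h1 := hp.le _ hw
    rcases hp.zone _ hw _ hT (hg i hi (by omega)) with h2 | h2
    · omega
    · omega

theorem VS_card (S d K N : ℕ) (a : List ℕ) : (VS S d K N a).card =
    (S + 1) + ((S + d + 1) + (K * a.sum + ((S + 1) + N))) := by
  rw [VS, List.toFinset_card_of_nodup (vlist_nodup S d K N a), vlist_length]

theorem deg_all' {S d K N : ℕ} {a : List ℕ} {v : Vt} (hv : v ∈ VS S d K N a) (s : Finset Vt)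
    (hs : ∀ w ∈ s, w ∈ VS S d K N a ∧ gam S d v w) : s.card ≤ S + 2 :=
  deg_all (mem_VS.1 hv) s fun w hw => ⟨mem_VS.1 (hs w hw).1, (hs w hw).2⟩

/-- the main step: a labelling with few sums gives a bin packing -/
theorem pre (hE : TaskE) (hF : TaskF) (hG : TaskG) (hH : TaskH) (hCAP : TaskCAP)
    (hRUN : TaskRUN) (hHULL : TaskHULL) (hZONE : TaskZONE) (hCNT : TaskCNT)
    {S b B K' N H E : ℕ} {a : List ℕ} (hb : 1 ≤ b)
    (hK : 14 * H + 30 ≤ 2 * K') (hS1 : 20 * H + 50 ≤ S)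
    (hS2 : 2 * b * ((8 * H + 17) * (3 * H + 10)) + H + 4 ≤ S)
    (hHe : H = 4 * b * (a.length + 1) + 2)
    (hEe : E = 4 * S + 8 * b + 4 + 4 * b * (K' * B + a.length))
    (hN : N = (3 * E + 4) * (E + 7))
    (hpos : ∀ i < a.length, 1 ≤ a.getD i 0) (hsum : a.sum = b * B)
    (lab : Vt → ℤ) (Sg : Finset ℤ)
    (hA : Set.InjOn lab (VS S (2 * b) (2 * K') N a))
    (hB : ∀ u ∈ VS S (2 * b) (2 * K') N a, ∀ v ∈ VS S (2 * b) (2 * K') N a, u ≠ v →
      ¬ gam S (2 * b) u v → lab u + lab v ∈ Sg)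
    (hC : ∀ u ∈ VS S (2 * b) (2 * K') N a, ∀ v ∈ VS S (2 * b) (2 * K') N a,
      ∀ x ∈ VS S (2 * b) (2 * K') N a, ∀ y ∈ VS S (2 * b) (2 * K') N a, u ≠ v → x ≠ y →
      gam S (2 * b) u v → ¬ gam S (2 * b) x y → lab u + lab v ≠ lab x + lab y)
    (hk : Sg.card + (2 * S + 3) ≤ 2 * XX S b B K' a.length N) : BPk a b B := by
  classical
  set V := VS S (2 * b) (2 * K') N a with hV
  set P := b * (K' * B) with hP
  set Q := b * a.length with hQ
  have hcard : V.card = 3 * S + 2 * b + 3 + 2 * P + N := by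
    rw [hV, VS_card, hsum, hP]; ring
  have hXX : XX S b B K' a.length N = 3 * S + 4 * b + 2 + 2 * P + 2 * Q + N := by
    unfold XX; rw [hP, hQ]; ring
  have hEe' : E = 4 * S + 8 * b + 4 + 4 * P + 4 * Q := by
    rw [hEe, hP, hQ]; ring
  have hHe' : H = 4 * Q + 4 * b + 2 := by
    rw [hHe, hQ]; ring
  have hNbig : 21 * E + 28 ≤ N := by
    rw [hN]
    calc 21 * E + 28 = (3 * E + 4) * 7 := by ring
      _ ≤ (3 * E + 4) * (E + 7) := Nat.mul_le_mul_left _ (by omega)
  -- the core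
  set CV : Finset Vt := (Finset.range N).image (fun i => ((4, i, 0) : Vt)) with hCV
  have hCVV : CV ⊆ V := by
    intro v hv
    obtain ⟨i, hi, rfl⟩ := Finset.mem_image.1 hv
    rw [hV, mem_VS, mem_vlist]
    right; right; right; right
    exact ⟨rfl, Finset.mem_range.1 hi, rfl⟩
  have hCVc : CV.card = N := by
    rw [hCV, Finset.card_image_of_injective _ (by intro i j hij; simpa using hij),
      Finset.card_range]
  have hCg : ∀ v ∈ CV, ∀ w, ¬ gam S (2 * b) w v := by
    intro v hv w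
    obtain ⟨i, hi, rfl⟩ := Finset.mem_image.1 hv
    rw [gam_iff]
    simp
  set A := V.image lab with hAd
  set C := CV.image lab with hCd
  have hCA : C ⊆ A := Finset.image_subset_image hCVV
  have hAc : A.card = V.card := Finset.card_image_of_injOn hA
  have hCc : C.card = N := by
    rw [hCd, Finset.card_image_of_injOn (hA.mono (by exact_mod_cast hCVV)), hCVc]
  have hAC : ∀ x ∈ A, ∀ y ∈ C, x ≠ y → x + y ∈ Sg := by
    intro x hx y hy hxy
    obtain ⟨u, hu, rfl⟩ := Finset.mem_image.1 hx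
    obtain ⟨v, hv, rfl⟩ := Finset.mem_image.1 hy
    exact hB u hu v (hCVV hv) (by rintro rfl; exact hxy rfl) (hCg v hv u)
  have hSgc : Sg.card + 3 ≤ 2 * C.card + E := by
    rw [hCc]; omega
  obtain ⟨a0, δ, hδ, hR1, hR2⟩ := hRUN C Sg E (E + 3) (fun x hx y hy => hAC x (hCA hx) y hy)
    hSgc (by rw [hCc, hN])
  obtain ⟨hdiv, hdiam⟩ := hHULL A C Sg a0 δ (E + 3) E hCA hAC hSgc (le_refl _) hδ hR1 hR2
  have hVne : V.Nonempty := by
    rw [← Finset.card_pos]; omega
  have hAne : A.Nonempty := hVne.image _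
  obtain ⟨mn, hmnA, hmn⟩ : ∃ mn ∈ A, ∀ x ∈ A, mn ≤ x := ⟨A.min' hAne, A.min'_mem _, fun x hx =>
    A.min'_le x hx⟩
  obtain ⟨mx, hmxA, hmx⟩ : ∃ mx ∈ A, ∀ x ∈ A, x ≤ mx := ⟨A.max' hAne, A.max'_mem _, fun x hx =>
    A.le_max' x hx⟩
  have hgex : ∀ v : Vt, ∃ k : ℕ, v ∈ V → lab v = mn + δ * (k : ℤ) := by
    intro v
    by_cases hv : v ∈ V
    · have h1 := hdiv (lab v) (Finset.mem_image_of_mem _ hv)
      have h2 := hdiv mn hmnA
      obtain ⟨k, hk⟩ := (Int.dvd_sub h1 h2 : δ ∣ (lab v - a0) - (mn - a0))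
      have h3 := hmn (lab v) (Finset.mem_image_of_mem _ hv)
      have hk0 : 0 ≤ k := by
        by_contra hcon
        push Not at hcon
        have : δ * k < 0 := mul_neg_of_pos_of_neg hδ hcon
        linarith
      refine ⟨k.toNat, fun _ => ?_⟩
      rw [Int.toNat_of_nonneg hk0]
      linarith
    · exact ⟨0, fun h => absurd h hv⟩
  choose g hg using hgex
  obtain ⟨v0, hv0, hv0e⟩ := Finset.mem_image.1 hmnA
  obtain ⟨v1, hv1, hv1e⟩ := Finset.mem_image.1 hmxA
  have hg0 : g v0 = 0 := by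
    have h1 := hg v0 hv0
    rw [hv0e] at h1
    have h2 : δ * (g v0 : ℤ) = 0 := by linarith
    rcases mul_eq_zero.1 h2 with h3 | h3
    · omega
    · exact_mod_cast h3
  set X := g v1 with hX
  have hgle : ∀ v ∈ V, g v ≤ X := by
    intro v hv
    have h1 := hg v hv
    have h2 := hg v1 hv1
    have h3 := hmx (lab v) (Finset.mem_image_of_mem _ hv)
    rw [← hv1e, h1, h2] at h3
    have h4 : δ * (g v : ℤ) ≤ δ * (g v1 : ℤ) := by linarith
    have h5 := le_of_mul_le_mul_left h4 hδ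
    exact_mod_cast h5
  have hinj : Set.InjOn g V := by
    intro u hu v hv huv
    apply hA hu hv
    rw [hg u hu, hg v hv, huv]
  have hnX : V.card ≤ X + 1 := by
    rw [← Finset.card_image_of_injOn hinj, ← Finset.card_range (X + 1)]
    apply Finset.card_le_card
    intro y hy
    obtain ⟨v, hv, rfl⟩ := Finset.mem_image.1 hy
    rw [Finset.mem_range]
    have := hgle v hv
    omega
  have hXle : X ≤ V.card + E + 1 := by
    have h1 := hdiam mn hmnA mx hmxA
    rw [← hv1e, hg v1 hv1, hAc] at h1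
    have h2 : δ * (g v1 : ℤ) ≤ δ * ((V.card : ℤ) + E + 1) := by linarith
    have h3 := le_of_mul_le_mul_left h2 hδ
    exact_mod_cast h3
  obtain ⟨h, hh⟩ : ∃ h, X + 1 = V.card + h := ⟨X + 1 - V.card, by omega⟩
  -- used sums
  set Sg' : Finset ℕ := ((V ×ˢ V).filter (fun p => p.1 ≠ p.2 ∧ ¬ gam S (2 * b) p.1 p.2)).image
    (fun p => g p.1 + g p.2) with hSg'
  have hmem : ∀ u, u ∈ Sg' ↔ ∃ x ∈ V, ∃ y ∈ V, x ≠ y ∧ ¬ gam S (2 * b) x y ∧ g x + g y = u := by
    intro u
    rw [hSg', Finset.mem_image]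
    constructor
    · rintro ⟨⟨x, y⟩, h1, h2⟩
      rw [Finset.mem_filter, Finset.mem_product] at h1
      exact ⟨x, h1.1.1, y, h1.1.2, h1.2.1, h1.2.2, h2⟩
    · rintro ⟨x, h1, y, h2, h3, h4, h5⟩
      exact ⟨(x, y), Finset.mem_filter.2 ⟨Finset.mem_product.2 ⟨h1, h2⟩, h3, h4⟩, h5⟩
  have hsumg : ∀ u ∈ V, ∀ v ∈ V, ∀ x ∈ V, ∀ y ∈ V, g u + g v = g x + g y →
      lab u + lab v = lab x + lab y := by
    intro u hu v hv x hx y hy h1
    rw [hg u hu, hg v hv, hg x hx, hg y hy]
    have h2 : (g u : ℤ) + g v = g x + g y := by exact_mod_cast h1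
    linear_combination δ * h2
  have hSgc' : Sg'.card ≤ Sg.card := by
    refine Finset.card_le_card_of_injOn (fun u => 2 * mn + δ * (u : ℤ)) ?_ ?_
    · intro u hu
      obtain ⟨x, hx, y, hy, h1, h2, h3⟩ := (hmem u).1 hu
      have h4 := hB x hx y hy h1 h2
      rw [hg x hx, hg y hy] at h4
      have h5 : 2 * mn + δ * (u : ℤ) = mn + δ * (g x : ℤ) + (mn + δ * (g y : ℤ)) := by
        rw [← h3]; push_cast; ring
      show 2 * mn + δ * (u : ℤ) ∈ Sg
      rw [h5]; exact h4
    · intro u _ u' _ h1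
      have h2 : δ * (u : ℤ) = δ * (u' : ℤ) := by
        have : 2 * mn + δ * (u : ℤ) = 2 * mn + δ * (u' : ℤ) := h1
        linarith
      have h3 := mul_left_cancel₀ (ne_of_gt hδ) h2
      exact_mod_cast h3
  have hPos : Pos V (gam S (2 * b)) g X h Sg' :=
    { inj := hinj
      le := hgle
      symm := fun u v => gam_symm
      irr := gam_irr
      hole := by omega
      used := by
        intro u hu v hv huv
        constructor
        · intro h1 h2
          obtain ⟨x, hx, y, hy, h3, h4, h5⟩ := (hmem _).1 h1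
          exact hC u hu v hv x hx y hy huv h3 h2 h4 (hsumg u hu v hv x hx y hy h5.symm)
        · intro h1
          exact (hmem _).2 ⟨u, hu, v, hv, huv, h1, rfl⟩
      Sle := by
        intro u hu
        obtain ⟨x, hx, y, hy, h3, _, h5⟩ := (hmem _).1 hu
        exact ⟨x, hx, y, hy, h3, h5.symm⟩ }
  have hM : ∀ s : Finset Vt, (∀ v ∈ s, v ∈ V ∧ ∃ w ∈ V, gam S (2 * b) v w) → s.card ≤ E := by
    intro s hs
    have h1 : Disjoint s CV := by
      rw [Finset.disjoint_left]
      intro v hv hv'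
      obtain ⟨_, w, _, h2⟩ := hs v hv
      exact hCg v hv' w (gam_symm h2)
    have h2 : s ∪ CV ⊆ V := by
      intro v hv
      rcases Finset.mem_union.1 hv with h3 | h3
      · exact (hs v h3).1
      · exact hCVV h3
    have h3 := Finset.card_le_card h2
    rw [Finset.card_union_of_disjoint h1, hCVc] at h3
    omega
  have hzone0 := hZONE Vt V (gam S (2 * b)) g X h Sg' E hPos hM
  have h2Z : 2 * (2 * (h + E)) < X := by omega
  have hpd : PD S (2 * b) (2 * K') N a g X h (2 * (h + E)) :=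
    { inj := hinj
      le := hgle
      hole := hPos.hole
      zone := by
        intro u hu v hv huv
        have hne : u ≠ v := by rintro rfl; exact gam_irr _ huv
        have hgne : g u ≠ g v := fun h1 => hne (hinj hu hv h1)
        have h1 := hgle u hu
        have h2 := hgle v hv
        exact hzone0 _ (by omega) (by omega) (fun h3 => (hPos.used u hu v hv hne).1 h3 huv)
      cons := by
        intro u hu v hv x hx y hy huv hxy h1 h2
        by_contra h3
        exact hC u hu v hv x hx y hy huv hxy h2 h3 (hsumg u hu v hv x hx y hy h1)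
      hZ := h2Z }
  have hcnt := fun (D₀ D₁ : ℕ) => hCNT Vt V (gam S (2 * b)) g X h Sg' (2 * (h + E)) D₀ D₁ v0 v1
    hPos hzone0 h2Z hv0 hg0 hv1 rfl
  have hd0 := fun s hs => deg_all' (v := v0) (by exact hv0) s hs
  have hd1 := fun s hs => deg_all' (v := v1) (by exact hv1) s hs
  have hhH : h ≤ H := by
    have h1 := hcnt (S + 2) (S + 2) hd0 hd1
    omega
  have ht0 : v0.1 = 0 ∨ v0.1 = 3 := by
    by_contra hcon
    push Not at hcon
    have h1 := hcnt 2 (S + 2) (fun s hs => deg_two (S := S) (d := 2 * b) (K := 2 * K') (N := N)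
      (a := a) hcon.1 hcon.2 s (fun w hw => ⟨mem_VS.1 (hs w hw).1, (hs w hw).2⟩)) hd1
    omega
  have ht1 : v1.1 = 0 ∨ v1.1 = 3 := by
    by_contra hcon
    push Not at hcon
    have h1 := hcnt (S + 2) 2 hd0 (fun s hs => deg_two (S := S) (d := 2 * b) (K := 2 * K')
      (N := N) (a := a) hcon.1 hcon.2 s (fun w hw => ⟨mem_VS.1 (hs w hw).1, (hs w hw).2⟩))
    omega
  have hR0 : ∀ c, (c = 0 ∨ c = 3) → v1.1 = c → ∀ w ∈ V, w.1 = c → X - g w ≤ 2 * (h + E) := by
    intro c hc h1 w hw hwc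
    exact hpd.reflect.allLeft hc hv1 h1 (by show X - g v1 ≤ _; omega) w hw hwc
  rcases ht0 with ht0 | ht0
  · have hL := hpd.allLeft (Or.inl rfl) hv0 ht0 (by omega)
    rcases ht1 with ht1 | ht1
    · exfalso
      have := hL v1 hv1 ht1
      omega
    · have hRR := hR0 3 (Or.inr rfl) ht1
      exact core hE hF hG hH hCAP hpd hhH hb hK hS1 hS2 hL
        (fun v hv h3 => by have := hRR v hv h3; omega) hpos hsum
  · have hL := hpd.allLeft (Or.inr rfl) hv0 ht0 (by omega)
    rcases ht1 with ht1 | ht1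
    · have hRR := hR0 0 (Or.inl rfl) ht1
      exact core hE hF hG hH hCAP hpd.reflect hhH hb hK hS1 hS2 (fun v hv h3 => hRR v hv h3)
        (fun v hv h3 => by
          have h4 := hL v hv h3
          have h5 := hgle v hv
          show X ≤ X - g v + _
          omega) hpos hsum
    · exfalso
      have := hL v1 hv1 ht1
      omega

end Pool.Agent.H43R3.SN
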