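import Mathlib

/-!
# Project H43-SN (MP_daf980_lc): computing the sum number of a graph is NP-hard

Definitions and statements of the tasks.
-/

set_option autoImplicit false

open Finset

namespace Pool.Agent.H43R3.SN

/-- `l` is a sum labelling of the disjoint union of `G` with `s` isolated vertices. -/
def IsLab {V : Type} (G : SimpleGraph V) (s : ℕ) (l : V ⊕ Fin s → ℕ) : Prop :=
  Function.Injective l ∧ (∀ x, 0 < l x) ∧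
  (∀ u v : V, u ≠ v → (G.Adj u v ↔ ∃ w, l w = l (Sum.inl u) + l (Sum.inl v))) ∧
  (∀ (x : V ⊕ Fin s) (i : Fin s), x ≠ Sum.inr i → ∀ w, l w ≠ l x + l (Sum.inr i))

/-- TASK EXC: in a graph with few non-edges at every vertex the sum of the labels of an edge is
never the label of a vertex of the graph. -/
def TaskEXC : Prop := ∀ (V : Type) [Fintype V] [DecidableEq V] (G : SimpleGraph V)
  [DecidableRel G.Adj] (D s : ℕ) (l : V ⊕ Fin s → ℕ),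
  (∀ v, (univ.filter (fun u => u ≠ v ∧ ¬ G.Adj v u)).card ≤ D) → 4 * D + 10 ≤ Fintype.card V →
  IsLab G s l → ∀ u v w : V, G.Adj u v → l (Sum.inl w) ≠ l (Sum.inl u) + l (Sum.inl v)

/-- TASK EXL: from an exclusive labelling to a sum labelling. -/
def TaskEXL : Prop := ∀ (V : Type) [Fintype V] [DecidableEq V] (G : SimpleGraph V) (g : V → ℕ)
  (X : ℕ) (W : Finset ℕ), Function.Injective g → (∀ v, g v ≤ X) →
  (∀ u v, u ≠ v → (G.Adj u v ↔ g u + g v ∈ W)) → (∀ w ∈ W, w ≤ 2 * X) →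
  ∃ l : V ⊕ Fin W.card → ℕ, IsLab G W.card l

/-- TASK RUN: a set with few restricted sums contains a long run of consecutive elements in
arithmetic progression. -/
def TaskRUN : Prop := ∀ (C Sg : Finset ℤ) (E L : ℕ), (∀ x ∈ C, ∀ y ∈ C, x ≠ y → x + y ∈ Sg) →
  Sg.card + 3 ≤ 2 * C.card + E → (3 * E + 4) * (L + 4) ≤ C.card →
  ∃ a δ : ℤ, 0 < δ ∧ (∀ j : ℕ, j ≤ L → a + j * δ ∈ C) ∧
    (∀ x ∈ C, a ≤ x → x ≤ a + L * δ → ∃ j : ℕ, j ≤ L ∧ x = a + j * δ)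

/-- TASK HULL: everything is in one progression with few holes. -/
def TaskHULL : Prop := ∀ (A C Sg : Finset ℤ) (a δ : ℤ) (L E : ℕ), C ⊆ A →
  (∀ x ∈ A, ∀ y ∈ C, x ≠ y → x + y ∈ Sg) → Sg.card + 3 ≤ 2 * C.card + E → E + 3 ≤ L → 0 < δ →
  (∀ j : ℕ, j ≤ L → a + j * δ ∈ C) →
  (∀ x ∈ C, a ≤ x → x ≤ a + L * δ → ∃ j : ℕ, j ≤ L ∧ x = a + j * δ) →
  (∀ x ∈ A, δ ∣ x - a) ∧ (∀ x ∈ A, ∀ y ∈ A, y - x ≤ δ * (A.card + E + 1 : ℤ))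

/-- Positions `g` of the vertices in `{0, ..., X}` with at most `h` holes; `gam` is non-adjacency;
`Sg` is the set of the sums of adjacent pairs. -/
structure Pos {α : Type} (V : Finset α) (gam : α → α → Prop) (g : α → ℕ) (X h : ℕ)
    (Sg : Finset ℕ) : Prop where
  inj : Set.InjOn g V
  le : ∀ v ∈ V, g v ≤ X
  symm : ∀ u v, gam u v → gam v u
  irr : ∀ u, ¬ gam u u
  hole : X + 1 ≤ V.card + h
  used : ∀ u ∈ V, ∀ v ∈ V, u ≠ v → (g u + g v ∈ Sg ↔ ¬ gam u v)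
  Sle : ∀ u ∈ Sg, ∃ x ∈ V, ∃ y ∈ V, x ≠ y ∧ u = g x + g y

/-- TASK ZONE: unused sums are near the two ends. -/
def TaskZONE : Prop := ∀ (α : Type) (V : Finset α) (gam : α → α → Prop) (g : α → ℕ) (X h : ℕ)
  (Sg : Finset ℕ) (M : ℕ), Pos V gam g X h Sg →
  (∀ s : Finset α, (∀ v ∈ s, v ∈ V ∧ ∃ w ∈ V, gam v w) → s.card ≤ M) →
  ∀ u : ℕ, 1 ≤ u → u + 1 ≤ 2 * X → u ∉ Sg → u ≤ 2 * (h + M) ∨ 2 * X ≤ u + 2 * (h + M)

/-- TASK CNT: number of unused sums. -/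
def TaskCNT : Prop := ∀ (α : Type) (V : Finset α) (gam : α → α → Prop) (g : α → ℕ) (X h : ℕ)
  (Sg : Finset ℕ) (Z D₀ D₁ : ℕ) (v₀ v₁ : α), Pos V gam g X h Sg →
  (∀ u : ℕ, 1 ≤ u → u + 1 ≤ 2 * X → u ∉ Sg → u ≤ Z ∨ 2 * X ≤ u + Z) → 2 * Z < X →
  v₀ ∈ V → g v₀ = 0 → v₁ ∈ V → g v₁ = X →
  (∀ s : Finset α, (∀ w ∈ s, w ∈ V ∧ gam v₀ w) → s.card ≤ D₀) →
  (∀ s : Finset α, (∀ w ∈ s, w ∈ V ∧ gam v₁ w) → s.card ≤ D₁) →
  2 * X ≤ Sg.card + D₀ + D₁ + h + 1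

/-- One end of the labelling, `t 0, ..., t S` a threshold graph; all other vertices at this end have
at most two non-neighbours. -/
structure SD {α : Type} (V : Finset α) (gam : α → α → Prop) (g : α → ℕ) (S h Y : ℕ)
    (U : Finset ℕ) (t : ℕ → α) : Prop where
  inj : Set.InjOn g V
  symm : ∀ u v, gam u v → gam v u
  irr : ∀ u, ¬ gam u u
  hole : ∀ s : Finset ℕ, (∀ y ∈ s, y ≤ Y ∧ ∀ v ∈ V, g v ≠ y) → s.card ≤ h
  UY : ∀ u ∈ U, 1 ≤ u ∧ u ≤ Y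
  adj : ∀ v ∈ V, ∀ w ∈ V, v ≠ w → g v + g w ≤ Y → (gam v w ↔ g v + g w ∈ U)
  tV : ∀ i ≤ S, t i ∈ V
  tinj : ∀ i ≤ S, ∀ j ≤ S, t i = t j → i = j
  tl : ∀ i ≤ S, ∀ w ∈ V, gam (t i) w → g (t i) + g w ≤ Y
  tt : ∀ i ≤ S, ∀ j ≤ S, (gam (t i) (t j) ↔ i ≠ j ∧ i + j ≤ S)
  tx : ∀ i ≤ S, ∀ s : Finset α, (∀ w ∈ s, w ∈ V ∧ gam (t i) w ∧ ∀ j ≤ S, w ≠ t j) → s.card ≤ 2
  low : ∀ v ∈ V, (∀ i ≤ S, v ≠ t i) → g v ≤ Y →
    ∀ s : Finset α, (∀ w ∈ s, w ∈ V ∧ gam v w) → s.card ≤ 2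

/-- TASK E: positions of the threshold graph; all other vertices are not below. -/
def TaskE : Prop := ∀ (α : Type) (V : Finset α) (gam : α → α → Prop) (g : α → ℕ) (S h Y : ℕ)
  (U : Finset ℕ) (t : ℕ → α), SD V gam g S h Y U t → h + 4 ≤ S →
  (∀ i, i + h + 4 ≤ S → g (t i) ≤ i + 2 * h + 5 ∧ i ≤ g (t i) + h + 4) ∧
  (∀ v ∈ V, (∀ i ≤ S, v ≠ t i) → g v ≤ Y → S ≤ g v + 2 * h + 7)

/-- TASK F: blocking. -/
def TaskF : Prop := TaskE → ∀ (α : Type) (V : Finset α) (gam : α → α → Prop) (g : α → ℕ)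
  (S h Y : ℕ) (U : Finset ℕ) (t : ℕ → α), SD V gam g S h Y U t → 8 * h + 25 ≤ S →
  (∀ i ≤ S, ∀ w ∈ V, gam (t i) w → ∃ j ≤ S, w = t j) →
  ∀ y ∈ V, ∀ z ∈ V, (∀ i ≤ S, y ≠ t i) → (∀ i ≤ S, z ≠ t i) → gam y z → Y < g y + g z

/-- TASK G: at most two large elements of `U`. -/
def TaskG : Prop := TaskE → ∀ (α : Type) (V : Finset α) (gam : α → α → Prop) (g : α → ℕ)
  (S h Y : ℕ) (U : Finset ℕ) (t : ℕ → α), SD V gam g S h Y U t → h + 4 ≤ S →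
  ∀ u₁ ∈ U, ∀ u₂ ∈ U, ∀ u₃ ∈ U, u₁ < u₂ → u₂ < u₃ → u₁ ≤ S + 6 * h + 8

/-- TASK H: the distance of the two large elements of `U` is `d`. -/
def TaskH : Prop := TaskE → ∀ (α : Type) (V : Finset α) (gam : α → α → Prop) (g : α → ℕ)
  (S h Y : ℕ) (U : Finset ℕ) (t w : ℕ → α) (d s₁ s₂ : ℕ), SD V gam g S h Y U t →
  1 ≤ d → s₁ < s₂ → d * ((8 * h + 17) * (3 * h + 10)) + h + 4 ≤ S →
  (∀ j ≤ S + d, w j ∈ V ∧ ∀ i ≤ S, w j ≠ t i) →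
  (∀ j ≤ S + d, ∀ j' ≤ S + d, w j = w j' → j = j') →
  (∀ i ≤ S, ∀ j ≤ S + d, (gam (w j) (t i) ↔ j = i ∨ j = i + d)) →
  (∀ u ∈ U, S + 6 * h + 8 < u → u = s₁ ∨ u = s₂) → s₂ = s₁ + d

/-- TASK CAP: the items give a bin packing. -/
def TaskCAP : Prop := TaskE → ∀ (α : Type) (V : Finset α) (gam : α → α → Prop) (g : α → ℕ)
  (S h Y : ℕ) (U : Finset ℕ) (t w : ℕ → α) (p : ℕ → ℕ → α) (a : ℕ → ℕ) (r b B K s₁ : ℕ),
  SD V gam g S h Y U t → 1 ≤ b → 14 * h + 30 ≤ K → 20 * h + 50 ≤ S →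
  (∀ j ≤ S + 2 * b, w j ∈ V ∧ ∀ i ≤ S, w j ≠ t i) →
  (∀ j ≤ S + 2 * b, ∀ j' ≤ S + 2 * b, w j = w j' → j = j') →
  (∀ i ≤ S, ∀ j ≤ S + 2 * b, (gam (w j) (t i) ↔ j = i ∨ j = i + 2 * b)) →
  (∀ i < r, 1 ≤ a i) →
  (∀ i < r, ∀ q < K * a i, p i q ∈ V ∧ (∀ j ≤ S, p i q ≠ t j) ∧ (∀ j ≤ S + 2 * b, p i q ≠ w j)) →
  (∀ i < r, ∀ q < K * a i, ∀ i' < r, ∀ q' < K * a i', p i q = p i' q' → i = i' ∧ q = q') →
  (∀ i < r, ∀ q, q + 1 < K * a i → gam (p i q) (p i (q + 1)) ∧ g (p i q) + g (p i (q + 1)) ≤ Y) →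
  (∀ v ∈ V, (∃ u ∈ V, gam v u) → g v ≤ Y → (∃ i ≤ S, v = t i) ∨ (∃ j ≤ S + 2 * b, v = w j) ∨
    (∃ i < r, ∃ q < K * a i, v = p i q)) →
  ∑ i ∈ range r, a i = b * B →
  s₁ + 2 * b ∈ U → (∀ u ∈ U, S + 6 * h + 8 < u → u = s₁ ∨ u = s₁ + 2 * b) →
  ∃ f : ℕ → ℕ, (∀ i < r, f i < b) ∧
    ∀ j < b, ∑ i ∈ (range r).filter (fun i => f i = j), a i ≤ B

/-! ### The graphs -/

/-- Vertices are triples `(tag, i, q)`. -/
abbrev Vt : Type := ℕ × ℕ × ℕ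

/-- Non-adjacency of different vertices. Tag 0: first threshold graph, tag 1: its top vertices,
tag 2: items (paths), tag 3: second threshold graph, tag 4: core. -/
def gb (S d : ℕ) (u v : Vt) : Bool :=
  decide (u.1 = 0 ∧ v.1 = 0 ∧ u.2.1 ≠ v.2.1 ∧ u.2.1 + v.2.1 ≤ S) ||
  decide (u.1 = 0 ∧ v.1 = 1 ∧ (v.2.1 = u.2.1 ∨ v.2.1 = u.2.1 + d)) ||
  decide (u.1 = 1 ∧ v.1 = 0 ∧ (u.2.1 = v.2.1 ∨ u.2.1 = v.2.1 + d)) ||
  decide (u.1 = 2 ∧ v.1 = 2 ∧ u.2.1 = v.2.1 ∧ (u.2.2 = v.2.2 + 1 ∨ v.2.2 = u.2.2 + 1)) ||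
  decide (u.1 = 3 ∧ v.1 = 3 ∧ u.2.1 ≠ v.2.1 ∧ u.2.1 + v.2.1 ≤ S)

/-- Non-adjacency. -/
def gam (S d : ℕ) (u v : Vt) : Prop := gb S d u v = true

/-- The list of the vertices. -/
def vlist (S d K N : ℕ) (a : List ℕ) : List Vt :=
  (List.range (S + 1)).map (fun i => (0, i, 0)) ++
  ((List.range (S + d + 1)).map (fun i => (1, i, 0)) ++
  ((List.range a.length).flatMap (fun i => (List.range (K * a.getD i 0)).map (fun q => (2, i, q))) ++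
  ((List.range (S + 1)).map (fun i => (3, i, 0)) ++
  (List.range N).map (fun i => (4, i, 0)))))

/-- `a` can be packed into `b` bins of capacity `B`. -/
def BPk (a : List ℕ) (b B : ℕ) : Prop := ∃ f : ℕ → ℕ, (∀ i < a.length, f i < b) ∧
  ∀ j < b, ∑ i ∈ (range a.length).filter (fun i => f i = j), a.getD i 0 ≤ B

/-- The sum `s`. -/
def ss (S b B K' r : ℕ) : ℕ := 2 * S + 2 * b + 1 + 2 * b * (K' * B + r)

/-- The largest position. -/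
def XX (S b B K' r N : ℕ) : ℕ := 3 * S + 4 * b + 2 + 2 * b * (K' * B + r) + N

/-- The unused sums of the standard labelling. -/
def UU (S b B K' r N : ℕ) : Finset ℕ :=
  Icc 1 S ∪ {ss S b B K' r, ss S b B K' r + 2 * b} ∪
    (Icc 1 S).image (fun u => 2 * XX S b B K' r N - u)

/-- TASK CONS: the standard labelling. -/
def TaskCONS : Prop := ∀ (a : List ℕ) (b B K' N S : ℕ), 1 ≤ b → 1 ≤ K' → BPk a b B →
  ∃ g : Vt → ℕ, Set.InjOn g {v | v ∈ vlist S (2 * b) (2 * K') N a} ∧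
    (∀ v ∈ vlist S (2 * b) (2 * K') N a, g v ≤ XX S b B K' a.length N) ∧
    ∀ u ∈ vlist S (2 * b) (2 * K') N a, ∀ v ∈ vlist S (2 * b) (2 * K') N a, u ≠ v →
      (gam S (2 * b) u v ↔ g u + g v ∈ UU S b B K' a.length N)

end Pool.Agent.H43R3.SN
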