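import Pool.Agent.H43R3.SN.StmtsA

/-!
# Task H of project H43-SN: the distance of the two large elements of `U` is `d`
-/

set_option autoImplicit false

open Finset

namespace Pool.Agent.H43R3.SN

theorem taskH : TaskH := by
  intro hTE α V gam g S h Y U t w d s₁ s₂ hSD hd hs hS hwV hwinj hwt hU
  obtain ⟨hE1, hE2⟩ := hTE α V gam g S h Y U t hSD (by omega)
  set m : ℕ := 3 * h + 10 with hm
  -- index bound
  have hidx : ∀ q : ℕ, q ≤ (8 * h + 17) * m → q * d + h + 4 ≤ S := by
    intro q hq
    have : q * d ≤ d * ((8 * h + 17) * m) := by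
      calc q * d ≤ ((8 * h + 17) * m) * d := Nat.mul_le_mul_right d hq
        _ = d * ((8 * h + 17) * m) := Nat.mul_comm _ _
    omega
  have hblk : ∀ k r : ℕ, k < 8 * h + 17 → r ≤ m → k * m + r ≤ (8 * h + 17) * m := by
    intro k r hk hr
    calc k * m + r ≤ k * m + m := by omega
      _ = (k + 1) * m := by ring
      _ ≤ (8 * h + 17) * m := Nat.mul_le_mul_right m (by omega)
  -- the good block
  obtain ⟨k, hk, hgood⟩ : ∃ k, k < 8 * h + 17 ∧ ∀ r, 1 ≤ r → r ≤ m →
      S + 6 * h + 8 < g (w ((k * m + r) * d)) := by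
    by_contra hcon
    push Not at hcon
    choose! f hf1 hf2 hf3 using hcon
    have hcard : (range (8 * h + 17)).card ≤ (Icc (S - 2 * h - 7) (S + 6 * h + 8)).card := by
      refine Finset.card_le_card_of_injOn (fun k => g (w ((k * m + f k) * d))) ?_ ?_
      · intro k hk
        have hk' : k < 8 * h + 17 := by simpa using hk
        have hi := hidx _ (hblk k (f k) hk' (hf2 k hk'))
        have hj : (k * m + f k) * d ≤ S := by omega
        have hw := hwV ((k * m + f k) * d) (by omega)
        have hadj := (hwt ((k * m + f k) * d) hj ((k * m + f k) * d) (by omega)).2 (Or.inl rfl)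
        have hY := hSD.tl _ hj _ hw.1 (hSD.symm _ _ hadj)
        have := hE2 _ hw.1 hw.2 (by omega)
        have h3 := hf3 k hk'
        simp only [Finset.coe_Icc, Set.mem_Icc]
        omega
      · intro k hk k' hk' heq
        have hk1 : k < 8 * h + 17 := by simpa using hk
        have hk1' : k' < 8 * h + 17 := by simpa using hk'
        have hi := hidx _ (hblk k (f k) hk1 (hf2 k hk1))
        have hi' := hidx _ (hblk k' (f k') hk1' (hf2 k' hk1'))
        have hw := hwV ((k * m + f k) * d) (by omega)
        have hw' := hwV ((k' * m + f k') * d) (by omega)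
        have e1 := hSD.inj hw.1 hw'.1 heq
        have e2 := hwinj _ (by omega) _ (by omega) e1
        have e3 : k * m + f k = k' * m + f k' := Nat.eq_of_mul_eq_mul_right (by omega) e2
        have a1 := hf1 k hk1
        have a2 := hf2 k hk1
        have b1 := hf1 k' hk1'
        have b2 := hf2 k' hk1'
        by_contra hne
        rcases Nat.lt_or_gt_of_ne hne with hlt | hlt
        · have : (k + 1) * m ≤ k' * m := Nat.mul_le_mul_right m (by omega)
          have : (k + 1) * m = k * m + m := by ring
          omega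
        · have : (k' + 1) * m ≤ k * m := Nat.mul_le_mul_right m (by omega)
          have : (k' + 1) * m = k' * m + m := by ring
          omega
    rw [Finset.card_range, Nat.card_Icc] at hcard
    omega
  -- positions along the block
  set T : ℕ → ℤ := fun r => (g (t ((k * m + r) * d)) : ℤ) with hT
  have hTinj : ∀ r r' : ℕ, r ≤ m → r' ≤ m → T r = T r' → r = r' := by
    intro r r' hr hr' he
    have hi := hidx _ (hblk k r hk hr)
    have hi' := hidx _ (hblk k r' hk hr')
    have e0 : g (t ((k * m + r) * d)) = g (t ((k * m + r') * d)) := by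
      simpa [hT] using he
    have e1 := hSD.inj (hSD.tV _ (by omega)) (hSD.tV _ (by omega)) e0
    have e2 := hSD.tinj _ (by omega) _ (by omega) e1
    have e3 : k * m + r = k * m + r' := Nat.eq_of_mul_eq_mul_right (by omega) e2
    omega
  have hstep : ∀ r : ℕ, r < m → T (r + 1) - T r = (s₂ : ℤ) - s₁ ∨ T (r + 1) - T r = -((s₂ : ℤ) - s₁) := by
    intro r hr
    have hi := hidx _ (hblk k r hk (by omega))
    have hi' := hidx _ (hblk k (r + 1) hk (by omega))
    have hexp : (k * m + (r + 1)) * d = (k * m + r) * d + d := by ring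
    have hw := hwV ((k * m + (r + 1)) * d) (by omega)
    have hadj1 := (hwt ((k * m + (r + 1)) * d) (by omega) ((k * m + (r + 1)) * d) (by omega)).2
      (Or.inl rfl)
    have hadj2 := (hwt ((k * m + r) * d) (by omega) ((k * m + (r + 1)) * d) (by omega)).2
      (Or.inr hexp)
    have hY1 := hSD.tl _ (by omega) _ hw.1 (hSD.symm _ _ hadj1)
    have hY2 := hSD.tl _ (by omega) _ hw.1 (hSD.symm _ _ hadj2)
    have hg := hgood (r + 1) (by omega) (by omega)
    have hU1 := (hSD.adj _ hw.1 _ (hSD.tV _ (by omega)) (hw.2 _ (by omega)) (by omega)).1 hadj1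
    have hU2 := (hSD.adj _ hw.1 _ (hSD.tV _ (by omega)) (hw.2 _ (by omega)) (by omega)).1 hadj2
    have c1 := hU _ hU1 (by omega)
    have c2 := hU _ hU2 (by omega)
    have hne : T (r + 1) ≠ T r := by
      intro he
      have := hTinj _ _ (by omega) (by omega) he
      omega
    simp only [hT] at hne ⊢
    omega
  have hsame : ∀ ε : ℤ, (T 1 - T 0 = ε) → (ε = (s₂ : ℤ) - s₁ ∨ ε = -((s₂ : ℤ) - s₁)) →
      ∀ r : ℕ, r < m → T (r + 1) - T r = ε := by
    intro ε h0 hε r
    induction r with
    | zero => intro _; simpa using h0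
    | succ r ih =>
      intro hr
      have h1 := ih (by omega)
      have h2 := hstep (r + 1) hr
      have hne : T (r + 1 + 1) ≠ T r := by
        intro he
        have := hTinj _ _ (by omega) (by omega) he
        omega
      omega
  have hsum : ∀ ε : ℤ, (∀ r : ℕ, r < m → T (r + 1) - T r = ε) → ∀ r : ℕ, r ≤ m →
      T r = T 0 + r * ε := by
    intro ε hε r
    induction r with
    | zero => intro _; simp
    | succ r ih =>
      intro hr
      have h1 := ih (by omega)
      have h2 := hε r (by omega)
      push_cast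
      linarith
  have hi0 := hidx _ (hblk k 0 hk (by omega))
  have him := hidx _ (hblk k m hk le_rfl)
  have hexpm : (k * m + m) * d = (k * m + 0) * d + m * d := by ring
  have hE0 := hE1 _ hi0
  have hEm := hE1 _ him
  have hT0 : T 0 = (g (t ((k * m + 0) * d)) : ℤ) := rfl
  have hTm : T m = (g (t ((k * m + m) * d)) : ℤ) := rfl
  have hlow : (m : ℤ) * d - (3 * h + 9) ≤ T m - T 0 := by
    have : ((m * d : ℕ) : ℤ) = (m : ℤ) * d := by push_cast; ring
    rw [hT0, hTm]
    omega
  have hup : T m - T 0 ≤ (m : ℤ) * d + (3 * h + 9) := by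
    have : ((m * d : ℕ) : ℤ) = (m : ℤ) * d := by push_cast; ring
    rw [hT0, hTm]
    omega
  have h00 := hstep 0 (by omega)
  have hm' : (m : ℤ) = 3 * h + 10 := by rw [hm]; push_cast; ring
  have hh0 : (0 : ℤ) ≤ h := Int.natCast_nonneg h
  have hd' : (1 : ℤ) ≤ d := by exact_mod_cast hd
  have hs' : (s₁ : ℤ) + 1 ≤ s₂ := by exact_mod_cast hs
  rcases h00 with h00 | h00
  · have hall := hsame _ (by simpa using h00) (Or.inl rfl)
    have hTm' := hsum _ hall m le_rfl
    have k1 : (m : ℤ) * (d - ((s₂ : ℤ) - s₁)) < m := by nlinarith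
    have k2 : (m : ℤ) * (((s₂ : ℤ) - s₁) - d) < m := by nlinarith
    have hmpos : (0 : ℤ) < m := by linarith
    have k3 : (d : ℤ) - ((s₂ : ℤ) - s₁) < 1 := by
      by_contra hc
      push Not at hc
      nlinarith
    have k4 : ((s₂ : ℤ) - s₁) - d < 1 := by
      by_contra hc
      push Not at hc
      nlinarith
    omega
  · exfalso
    have hall := hsame _ (by simpa using h00) (Or.inr rfl)
    have hTm' := hsum _ hall m le_rfl
    nlinarith

end Pool.Agent.H43R3.SN
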