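import Pool.Agent.H43R3.SN.StmtsA

/-!
The list of the vertices.
-/

set_option autoImplicit false

open Finset

namespace Pool.Agent.H43R3.SN

theorem mem_vlist {S d K N : ℕ} {a : List ℕ} {v : Vt} : v ∈ vlist S d K N a ↔
    (v.1 = 0 ∧ v.2.1 ≤ S ∧ v.2.2 = 0) ∨ (v.1 = 1 ∧ v.2.1 ≤ S + d ∧ v.2.2 = 0) ∨
    (v.1 = 2 ∧ v.2.1 < a.length ∧ v.2.2 < K * a.getD v.2.1 0) ∨
    (v.1 = 3 ∧ v.2.1 ≤ S ∧ v.2.2 = 0) ∨ (v.1 = 4 ∧ v.2.1 < N ∧ v.2.2 = 0) := by
  obtain ⟨x, y, z⟩ := v
  simp only [vlist, List.mem_append, List.mem_map, List.mem_range, List.mem_flatMap, Prod.mk.injEq]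
  constructor
  · rintro (⟨i, h, rfl, rfl, rfl⟩ | ⟨i, h, rfl, rfl, rfl⟩ | ⟨i, h, q, h', rfl, rfl, rfl⟩ |
      ⟨i, h, rfl, rfl, rfl⟩ | ⟨i, h, rfl, rfl, rfl⟩)
    · left; exact ⟨rfl, by omega, rfl⟩
    · right; left; exact ⟨rfl, by omega, rfl⟩
    · right; right; left; exact ⟨rfl, h, h'⟩
    · right; right; right; left; exact ⟨rfl, by omega, rfl⟩
    · right; right; right; right; exact ⟨rfl, h, rfl⟩
  · rintro (⟨h1, h2, h3⟩ | ⟨h1, h2, h3⟩ | ⟨h1, h2, h3⟩ | ⟨h1, h2, h3⟩ | ⟨h1, h2, h3⟩)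
    · left; exact ⟨y, by omega, h1.symm, rfl, h3.symm⟩
    · right; left; exact ⟨y, by omega, h1.symm, rfl, h3.symm⟩
    · right; right; left; exact ⟨y, h2, z, h3, h1.symm, rfl, rfl⟩
    · right; right; right; left; exact ⟨y, by omega, h1.symm, rfl, h3.symm⟩
    · right; right; right; right; exact ⟨y, h2, h1.symm, rfl, h3.symm⟩

theorem vlist_length (S d K N : ℕ) (a : List ℕ) : (vlist S d K N a).length =
    (S + 1) + ((S + d + 1) + (K * a.sum + ((S + 1) + N))) := by
  simp only [vlist, List.length_append, List.length_map, List.length_range, List.length_flatMap]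
  congr 3
  have : ∀ l : List ℕ, ((List.range l.length).map (fun i => K * l.getD i 0)).sum = K * l.sum := by
    intro l
    induction l with
    | nil => simp
    | cons x l ih =>
      rw [List.length_cons, List.range_succ_eq_map, List.map_cons, List.sum_cons, List.map_map,
        List.sum_cons]
      have : ((fun i => K * (x :: l).getD i 0) ∘ Nat.succ) = fun i => K * l.getD i 0 := by
        funext i; simp
      rw [this, ih]
      simp [Nat.mul_add]
  rw [this]

theorem vlist_nodup (S d K N : ℕ) (a : List ℕ) : (vlist S d K N a).Nodup := by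
  unfold vlist
  have hm : ∀ (c n : ℕ), ((List.range n).map (fun i => ((c, i, 0) : Vt))).Nodup := by
    intro c n
    refine List.Nodup.map ?_ List.nodup_range
    intro i j h
    simpa using h
  have h3 : ((List.range a.length).flatMap
      (fun i => (List.range (K * a.getD i 0)).map (fun q => ((2, i, q) : Vt)))).Nodup := by
    rw [List.nodup_flatMap]
    constructor
    · intro i _
      refine List.Nodup.map ?_ List.nodup_range
      intro q q' h
      simpa using h
    · refine List.Pairwise.imp ?_ (List.pairwise_lt_range)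
      intro i j hij v hv hv'
      simp only [List.mem_map] at hv hv'
      obtain ⟨q, _, rfl⟩ := hv
      obtain ⟨q', _, h⟩ := hv'
      simp only [Prod.mk.injEq] at h
      omega
  have ht : ∀ (c n : ℕ), ∀ v ∈ (List.range n).map (fun i => ((c, i, 0) : Vt)), v.1 = c := by
    intro c n v hv
    rw [List.mem_map] at hv
    obtain ⟨i, _, rfl⟩ := hv
    rfl
  have ht2 : ∀ v ∈ (List.range a.length).flatMap
      (fun i => (List.range (K * a.getD i 0)).map (fun q => ((2, i, q) : Vt))), v.1 = 2 := by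
    intro v hv
    rw [List.mem_flatMap] at hv
    obtain ⟨i, _, hv⟩ := hv
    rw [List.mem_map] at hv
    obtain ⟨q, _, rfl⟩ := hv
    rfl
  have hd : ∀ (c : ℕ) (l l' : List Vt), (∀ v ∈ l, v.1 = c) → (∀ w ∈ l', c < w.1) →
      List.Disjoint l l' := by
    intro c l l' h h' v hv hw
    have h1 := h v hv
    have h2 := h' v hw
    omega
  have ha : ∀ (c : ℕ) (l l' : List Vt), (∀ v ∈ l, c < v.1) → (∀ v ∈ l', c < v.1) →
      ∀ v ∈ l ++ l', c < v.1 := by
    intro c l l' h h' v hv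
    rw [List.mem_append] at hv
    exact hv.elim (h v) (h' v)
  have hl : ∀ (c c' : ℕ) (l : List Vt), c < c' → (∀ v ∈ l, v.1 = c') → ∀ v ∈ l, c < v.1 := by
    intro c c' l h h' v hv
    rw [h' v hv]; exact h
  refine List.Nodup.append (hm 0 _) (List.Nodup.append (hm 1 _) (List.Nodup.append h3
    (List.Nodup.append (hm 3 _) (hm 4 _) ?_) ?_) ?_) ?_
  · exact hd 3 _ _ (ht 3 _) (hl 3 4 _ (by norm_num) (ht 4 _))
  · exact hd 2 _ _ ht2 (ha _ _ _ (hl 2 3 _ (by norm_num) (ht 3 _)) (hl 2 4 _ (by norm_num) (ht 4 _)))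
  · exact hd 1 _ _ (ht 1 _) (ha _ _ _ (hl 1 2 _ (by norm_num) ht2)
      (ha _ _ _ (hl 1 3 _ (by norm_num) (ht 3 _)) (hl 1 4 _ (by norm_num) (ht 4 _))))
  · exact hd 0 _ _ (ht 0 _) (ha _ _ _ (hl 0 1 _ (by norm_num) (ht 1 _)) (ha _ _ _
      (hl 0 2 _ (by norm_num) ht2)
      (ha _ _ _ (hl 0 3 _ (by norm_num) (ht 3 _)) (hl 0 4 _ (by norm_num) (ht 4 _)))))

theorem gam_symm {S d : ℕ} {u v : Vt} (h : gam S d u v) : gam S d v u := by
  unfold gam gb at *
  simp only [Bool.or_eq_true, decide_eq_true_eq] at *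
  omega

theorem gam_irr {S d : ℕ} (u : Vt) : ¬ gam S d u u := by
  unfold gam gb
  simp only [Bool.or_eq_true, decide_eq_true_eq]
  omega

theorem gam_iff {S d : ℕ} {u v : Vt} : gam S d u v ↔
  (u.1 = 0 ∧ v.1 = 0 ∧ u.2.1 ≠ v.2.1 ∧ u.2.1 + v.2.1 ≤ S) ∨
  (u.1 = 0 ∧ v.1 = 1 ∧ (v.2.1 = u.2.1 ∨ v.2.1 = u.2.1 + d)) ∨
  (u.1 = 1 ∧ v.1 = 0 ∧ (u.2.1 = v.2.1 ∨ u.2.1 = v.2.1 + d)) ∨
  (u.1 = 2 ∧ v.1 = 2 ∧ u.2.1 = v.2.1 ∧ (u.2.2 = v.2.2 + 1 ∨ v.2.2 = u.2.2 + 1)) ∨
  (u.1 = 3 ∧ v.1 = 3 ∧ u.2.1 ≠ v.2.1 ∧ u.2.1 + v.2.1 ≤ S) := by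
  unfold gam gb
  simp only [Bool.or_eq_true, decide_eq_true_eq, or_assoc]

/-- degree of a vertex of tag 1, 2 or 4 -/
theorem deg_two {S d K N : ℕ} {a : List ℕ} {v : Vt} (h0 : v.1 ≠ 0) (h3 : v.1 ≠ 3)
    (s : Finset Vt) (hs : ∀ w ∈ s, w ∈ vlist S d K N a ∧ gam S d v w) : s.card ≤ 2 := by
  obtain ⟨x, y, z⟩ := v
  by_cases h1 : x = 1
  · subst h1
    refine (Finset.card_le_card (t := {(0, y, 0), (0, y - d, 0)}) ?_).trans (Finset.card_le_two)
    intro w hw
    obtain ⟨hw1, hw2⟩ := hs w hw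
    rw [mem_vlist] at hw1
    rw [gam_iff] at hw2
    obtain ⟨x', y', z'⟩ := w
    simp only [Finset.mem_insert, Finset.mem_singleton, Prod.mk.injEq] at *
    omega
  · by_cases h2 : x = 2
    · subst h2
      refine (Finset.card_le_card (t := {(2, y, z + 1), (2, y, z - 1)}) ?_).trans
        (Finset.card_le_two)
      intro w hw
      obtain ⟨hw1, hw2⟩ := hs w hw
      rw [gam_iff] at hw2
      obtain ⟨x', y', z'⟩ := w
      simp only [Finset.mem_insert, Finset.mem_singleton, Prod.mk.injEq] at *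
      omega
    · have : s = ∅ := by
        rw [Finset.eq_empty_iff_forall_notMem]
        intro w hw
        obtain ⟨hw1, hw2⟩ := hs w hw
        rw [gam_iff] at hw2
        simp only at *
        omega
      simp [this]

/-- all degrees -/
theorem deg_all {S d K N : ℕ} {a : List ℕ} {v : Vt} (hv : v ∈ vlist S d K N a)
    (s : Finset Vt) (hs : ∀ w ∈ s, w ∈ vlist S d K N a ∧ gam S d v w) : s.card ≤ S + 2 := by
  obtain ⟨x, y, z⟩ := v
  have hcard : ∀ c : ℕ, y ≤ S → (((Finset.range (S + 1)).erase y).image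
      (fun i => ((c, i, 0) : Vt))).card ≤ S := by
    intro c hy
    refine Finset.card_image_le.trans ?_
    rw [Finset.card_erase_of_mem (Finset.mem_range.2 (by omega)), Finset.card_range]
    omega
  by_cases h0 : x = 0
  · subst h0
    have hy : y ≤ S := by
      rw [mem_vlist] at hv
      simp only at hv
      omega
    refine (Finset.card_le_card (t := ((Finset.range (S + 1)).erase y).image
      (fun i => ((0, i, 0) : Vt)) ∪ {(1, y, 0), (1, y + d, 0)}) ?_).trans
      ((Finset.card_union_le _ _).trans (Nat.add_le_add (hcard 0 hy) (Finset.card_le_two)))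
    intro w hw
    obtain ⟨hw1, hw2⟩ := hs w hw
    rw [mem_vlist] at hw1
    rw [gam_iff] at hw2
    obtain ⟨x', y', z'⟩ := w
    simp only [Finset.mem_union, Finset.mem_image, Finset.mem_erase, Finset.mem_range,
      Finset.mem_insert, Finset.mem_singleton, Prod.mk.injEq] at *
    by_cases hx : x' = 0
    · left
      exact ⟨y', by omega, by omega, by omega, by omega⟩
    · right
      omega
  · by_cases h3 : x = 3
    · subst h3
      have hy : y ≤ S := by
        rw [mem_vlist] at hv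
        simp only at hv
        omega
      refine (Finset.card_le_card (t := ((Finset.range (S + 1)).erase y).image
        (fun i => ((3, i, 0) : Vt))) ?_).trans ((hcard 3 hy).trans (by omega))
      intro w hw
      obtain ⟨hw1, hw2⟩ := hs w hw
      rw [mem_vlist] at hw1
      rw [gam_iff] at hw2
      obtain ⟨x', y', z'⟩ := w
      simp only [Finset.mem_image, Finset.mem_erase, Finset.mem_range, Prod.mk.injEq] at *
      exact ⟨y', by omega, by omega, by omega, by omega⟩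
    · exact (deg_two h0 h3 s hs).trans (by omega)

end Pool.Agent.H43R3.SN
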