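import Pool.Agent.H43R3.SN.StmtsA

set_option autoImplicit false

open Finset

namespace Pool.Agent.H43R3.SN.ZONE

lemma key {α : Type} (V : Finset α) (gam : α → α → Prop) (g : α → ℕ) (X h M u : ℕ)
    (hinj : Set.InjOn g V) (hle : ∀ v ∈ V, g v ≤ X) (hole : X + 1 ≤ V.card + h)
    (hM : ∀ s : Finset α, (∀ v ∈ s, v ∈ V ∧ ∃ w ∈ V, gam v w) → s.card ≤ M) (hu : u ≤ X)
    (hg : ∀ v ∈ V, ∀ w ∈ V, v ≠ w → g v + g w = u → gam v w) : u ≤ 2 * (h + M) := by
  classical
  set H : Finset ℕ := (range (X + 1)).filter (fun x => ∀ v ∈ V, g v ≠ x) with hH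
  set B : Finset α := V.filter (fun v => ∃ w ∈ V, gam v w) with hB
  have hBM : B.card ≤ M := hM B (fun v hv => by
    rw [hB, mem_filter] at hv
    exact hv)
  have hHc : H.card ≤ h := by
    have h1 : H.card + V.card ≤ X + 1 := by
      have h2 : Disjoint H (V.image g) := by
        rw [Finset.disjoint_left]
        intro x hx hx'
        rw [hH, mem_filter] at hx
        obtain ⟨v, hv, rfl⟩ := mem_image.1 hx'
        exact hx.2 v hv rfl
      have h3 : (V.image g).card = V.card := card_image_of_injOn hinj
      rw [← h3, ← card_union_of_disjoint h2]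
      refine (card_le_card ?_).trans (card_range (X + 1)).le
      intro x hx
      rcases mem_union.1 hx with hx | hx
      · rw [hH, mem_filter] at hx
        exact hx.1
      · obtain ⟨v, hv, rfl⟩ := mem_image.1 hx
        have := hle v hv
        exact mem_range.2 (by omega)
    omega
  have hsub : range ((u + 1) / 2) ⊆ H.filter (fun x => 2 * x < u) ∪
      ((H.filter (fun y => u < 2 * y)).image (fun y => u - y) ∪ B.image g) := by
    intro x hx
    have hx' : x < (u + 1) / 2 := mem_range.1 hx
    have hx2 : 2 * x < u := by omega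
    by_cases h1 : ∀ v ∈ V, g v ≠ x
    · refine mem_union_left _ (mem_filter.2 ⟨?_, hx2⟩)
      rw [hH, mem_filter]
      exact ⟨mem_range.2 (by omega), h1⟩
    · refine mem_union_right _ ?_
      push Not at h1
      obtain ⟨v, hv, hgv⟩ := h1
      by_cases h2 : ∀ w ∈ V, g w ≠ u - x
      · refine mem_union_left _ (mem_image.2 ⟨u - x, mem_filter.2 ⟨?_, by omega⟩, by omega⟩)
        rw [hH, mem_filter]
        exact ⟨mem_range.2 (by omega), h2⟩
      · push Not at h2
        obtain ⟨w, hw, hgw⟩ := h2
        refine mem_union_right _ (mem_image.2 ⟨v, ?_, hgv⟩)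
        rw [hB, mem_filter]
        refine ⟨hv, w, hw, hg v hv w hw ?_ (by omega)⟩
        rintro rfl
        omega
  have hcard := card_le_card hsub
  rw [card_range] at hcard
  have c1 := card_union_le (H.filter (fun x => 2 * x < u))
    ((H.filter (fun y => u < 2 * y)).image (fun y => u - y) ∪ B.image g)
  have c2 := card_union_le ((H.filter (fun y => u < 2 * y)).image (fun y => u - y)) (B.image g)
  have c3 : ((H.filter (fun y => u < 2 * y)).image (fun y => u - y)).card ≤
    (H.filter (fun y => u < 2 * y)).card := card_image_le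
  have c4 : (B.image g).card ≤ B.card := card_image_le
  have c5 : (H.filter (fun x => 2 * x < u)).card + (H.filter (fun y => u < 2 * y)).card ≤
      H.card := by
    rw [← card_union_of_disjoint]
    · exact card_le_card (union_subset (filter_subset _ _) (filter_subset _ _))
    · rw [Finset.disjoint_left]
      intro x hx hx'
      have a := (mem_filter.1 hx).2
      have b := (mem_filter.1 hx').2
      omega
  omega

theorem taskZONE : TaskZONE := by
  intro α V gam g X h Sg M hP hM u hu1 hu2 huS
  have hgam : ∀ v ∈ V, ∀ w ∈ V, v ≠ w → g v + g w = u → gam v w := by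
    intro v hv w hw hvw hs
    by_contra hn
    exact huS (hs ▸ (hP.used v hv w hw hvw).2 hn)
  rcases le_or_gt u X with h1 | h1
  · exact Or.inl (key V gam g X h M u hP.inj hP.le hP.hole hM h1 hgam)
  · right
    have h2 := key V gam (fun v => X - g v) X h M (2 * X - u) (by
      intro v hv w hw hvw
      have a := hP.le v hv
      have b := hP.le w hw
      simp only at hvw
      exact hP.inj hv hw (by omega)) (fun v _ => Nat.sub_le _ _) hP.hole hM (by omega) (by
      intro v hv w hw hvw hs
      have a := hP.le v hv
      have b := hP.le w hw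
      exact hgam v hv w hw hvw (by omega))
    omega

end Pool.Agent.H43R3.SN.ZONE

alias Pool.Agent.H43R3.SN.taskZONE := Pool.Agent.H43R3.SN.ZONE.taskZONE
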